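import Mathlib

namespace Pool.Agent.Results.MP_e761a2_pr.No

open Filter Topology SimpleGraph

/-- `H` is a minor of `G` (branch sets). -/
def IsMinor {W V : Type} (H : SimpleGraph W) (G : SimpleGraph V) : Prop :=
  ∃ B : W → Set V, (∀ a, (G.induce (B a)).Connected) ∧ (∀ a b, a ≠ b → Disjoint (B a) (B b)) ∧
    ∀ a b, H.Adj a b → ∃ x ∈ B a, ∃ y ∈ B b, G.Adj x y

/-- Finite graphs. -/
abbrev FG : Type := Σ m : ℕ, SimpleGraph (Fin m)

/-- Finite rooted graphs. -/
abbrev RG : Type := Σ m : ℕ, SimpleGraph (Fin m) × Fin m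

/-- Rooted isomorphism. -/
def RIso (A B : RG) : Prop := ∃ φ : A.2.1 ≃g B.2.1, φ A.2.2 = B.2.2

/-- Rooted isomorphism classes. -/
abbrev RC : Type := Quot RIso

/-- Connected rooted graphs on `Fin n` with no minor in `S`. -/
def Ex (S : Finset FG) (n : ℕ) : Set RG :=
  {A | A.1 = n ∧ A.2.1.Connected ∧ ∀ H ∈ S, ¬ IsMinor H.2 A.2.1}

/-- The ball of radius `r` about the root of `A` is rooted-isomorphic to `H`. -/
def BallIso (r : ℕ) (H A : RG) : Prop :=
  ∃ φ : H.2.1 ≃g A.2.1.induce {v | A.2.1.edist A.2.2 v ≤ r}, (φ H.2.2).1 = A.2.2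

/-- `Pr[B_r(R_n) ≅ H]`, labelled model. -/
noncomputable def prL (S : Finset FG) (n r : ℕ) (H : RG) : ℝ :=
  ((Ex S n ∩ {A | BallIso r H A}).ncard : ℝ) / (Ex S n).ncard

/-- `Pr[B_r(R_n) ≅ H]`, unlabelled model. -/
noncomputable def prU (S : Finset FG) (n r : ℕ) (H : RG) : ℝ :=
  ((Quot.mk RIso '' (Ex S n ∩ {A | BallIso r H A})).ncard : ℝ) / (Quot.mk RIso '' Ex S n).ncard

/-- Weak local convergence in the space of locally finite rooted graphs. -/
def WeakConv (pr : ℕ → ℕ → RG → ℝ) : Prop :=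
  ∀ r, ∃ l : RC → ℝ, (∀ H, Tendsto (fun n => pr n r H) atTop (𝓝 (l (Quot.mk RIso H)))) ∧ HasSum l 1

lemma near {n : ℕ} (G : SimpleGraph (Fin n)) (hc : G.Connected) (h : ¬ IsMinor (pathGraph 4) G)
    (o v : Fin n) : G.edist o v ≤ 2 := by
  obtain ⟨p, hp, hl⟩ := (hc o v).exists_path_of_dist
  by_contra hn
  have h3 : 3 ≤ p.length := by
    by_contra h3
    exact hn ((G.edist_le p).trans (by exact_mod_cast (by omega : p.length ≤ 2)))
  refine h ⟨fun a => {p.getVert a}, fun a => ?_, fun a b hab => ?_, fun a b hab => ?_⟩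
  · simp
  · rw [Set.disjoint_singleton]
    intro e
    exact hab (Fin.ext (hp.getVert_injOn (by simp; omega) (by simp; omega) e))
  · refine ⟨_, rfl, _, rfl, ?_⟩
    rcases pathGraph_adj.1 hab with e | e
    · rw [← e]; exact p.adj_getVert_succ (by omega)
    · rw [← e]; exact (p.adj_getVert_succ (by omega)).symm

lemma empty (n : ℕ) (H : RG) (hn : H.1 < n) :
    Ex {⟨4, pathGraph 4⟩} n ∩ {A | BallIso 2 H A} = ∅ := by
  ext ⟨m, G, o⟩
  simp only [Set.mem_empty_iff_false, iff_false]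
  rintro ⟨⟨rfl, hc, hm⟩, φ, -⟩
  have h := near G hc (hm _ (Finset.mem_singleton_self _)) o
  have : Function.Surjective fun a => (φ a).1 := fun v => by
    obtain ⟨a, ha⟩ := φ.surjective ⟨v, h v⟩
    exact ⟨a, congrArg Subtype.val ha⟩
  have := Fintype.card_le_of_surjective _ this
  simp only [Fintype.card_fin] at this
  exact absurd hn (not_lt.2 this)

lemma not_conv (pr : ℕ → ℕ → RG → ℝ) (h : ∀ n H, H.1 < n → pr n 2 H = 0) : ¬ WeakConv pr := by
  intro hc
  obtain ⟨l, h1, h2⟩ := hc 2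
  have : l = 0 := by
    funext c
    obtain ⟨H, rfl⟩ := Quot.exists_rep c
    refine tendsto_nhds_unique (h1 H) (tendsto_const_nhds.congr' ?_)
    filter_upwards [eventually_gt_atTop H.1] with n hn using (h n H hn).symm
  rw [this] at h2
  exact zero_ne_one (hasSum_zero.unique h2)

lemma star (n : ℕ) : (Ex {⟨4, pathGraph 4⟩} (n + 1)).Nonempty := by
  let G : SimpleGraph (Fin (n + 1)) := SimpleGraph.fromRel fun a _ => a = 0
  refine ⟨⟨n + 1, G, 0⟩, rfl, ?_, ?_⟩
  · refine (connected_iff_exists_forall_reachable G).2 ⟨0, fun v => ?_⟩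
    by_cases h : v = 0
    · rw [h]
    · exact Adj.reachable (by simp [G, fromRel_adj, Ne.symm h])
  · intro H hH
    rw [Finset.mem_singleton.1 hH]
    rintro ⟨B, -, hd, ha⟩
    obtain ⟨x, hx, y, hy, h1⟩ := ha 0 1 (pathGraph_adj.2 (by decide))
    obtain ⟨z, hz, w, hw, h2⟩ := ha 2 3 (pathGraph_adj.2 (by decide))
    rcases h1.2 with rfl | rfl <;> rcases h2.2 with rfl | rfl
    · exact Set.disjoint_left.1 (hd 0 2 (by decide)) hx hz
    · exact Set.disjoint_left.1 (hd 0 3 (by decide)) hx hw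
    · exact Set.disjoint_left.1 (hd 1 2 (by decide)) hy hz
    · exact Set.disjoint_left.1 (hd 1 3 (by decide)) hy hw

theorem result : ∃ S : Finset FG, S.Nonempty ∧ (∀ H ∈ S, H.2.Connected) ∧
    (∀ n, 0 < n → (Ex S n).Nonempty) ∧ ¬ WeakConv (prL S) ∧ ¬ WeakConv (prU S) := by
  refine ⟨{⟨4, pathGraph 4⟩}, Finset.singleton_nonempty _, fun H hH => ?_, fun n hn => ?_,
    not_conv _ fun n H h => ?_, not_conv _ fun n H h => ?_⟩
  · rw [Finset.mem_singleton.1 hH]; exact pathGraph_connected 3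
  · obtain ⟨k, rfl⟩ := Nat.exists_eq_succ_of_ne_zero hn.ne'
    exact star k
  · simp [prL, empty n H h]
  · simp [prU, empty n H h]

end Pool.Agent.Results.MP_e761a2_pr.No
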